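import Mathlib
import Pool.Agent.Helper3_PPZ.Stmts

/-!
# Squad PPZ, module LRE: residues of logarithmic differentials
-/

set_option autoImplicit false

universe u

namespace Pool.Agent.PPZ.H58

open PGH PPX

section

variable {L E : Type*} [Field L] [Field E] [Algebra L E]

theorem lre_w {P : Place L E} {u : E} (hu0 : u ≠ 0) (hu : P.ord u = 1) {y : E} (hy : y ≠ 0) :
    ∃ w : E, w ≠ 0 ∧ P.ord w = 0 ∧ y = w * u ^ (P.ord y) := by
  refine ⟨y * u ^ (-(P.ord y)), mul_ne_zero hy (zpow_ne_zero _ hu0), ?_, ?_⟩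
  · rw [P.ord_mul hy (zpow_ne_zero _ hu0), P.ord_zpow, hu]; ring
  · rw [mul_assoc, ← zpow_add₀ hu0]; simp

theorem logder {P : Place L E} {D : Derivation ℤ E E} (h : DGe P D 0) {u : E} (hu0 : u ≠ 0)
    (hu : P.ord u = 1) (hDu : D u = 1) {y : E} (hy : y ≠ 0) :
    P.Ge 0 (D y / y - (P.ord y : E) / u) := by
  obtain ⟨w, hw0, hw, hyw⟩ := lre_w hu0 hu hy
  have hun : u ^ (P.ord y) ≠ 0 := zpow_ne_zero _ hu0
  have h1 : D y / y - (P.ord y : E) / u = D w * w⁻¹ := by
    have h2 : D y = w * ((P.ord y : E) * u ^ (P.ord y - 1)) + u ^ (P.ord y) * D w := by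
      conv_lhs => rw [hyw]
      rw [D.leibniz, smul_eq_mul, smul_eq_mul, deriv_zpow D u, hDu, mul_one]
    have h3 : u ^ (P.ord y - 1) = u ^ (P.ord y) / u := by
      rw [zpow_sub_one₀ hu0, div_eq_mul_inv]
    have h4 : D y / y = (w * ((P.ord y : E) * (u ^ (P.ord y) / u)) + u ^ (P.ord y) * D w) /
        (w * u ^ (P.ord y)) := by
      rw [h2, h3, ← hyw]
    rw [h4]
    field_simp
    ring
  rw [h1]
  refine Place.Ge.mul' (h w ((P.ge_iff hw0).2 (by omega)))
    (n := 0) ((P.ge_iff (inv_ne_zero hw0)).2 (by rw [P.ord_inv]; omega)) (by omega)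

theorem lre_div {P : Place L E} {u : E} (hu0 : u ≠ 0) (hu : P.ord u = 1) (c : L)
    (h : P.Ge 0 (algebraMap L E c / u)) : c = 0 := by
  by_contra hc
  have hc' : algebraMap L E c ≠ 0 := by
    intro h0; exact hc ((map_eq_zero _).1 h0)
  rw [P.ge_iff (div_ne_zero hc' hu0), P.ord_div hc' hu0, P.ord_const, hu] at h
  omega

theorem lre_res [CharZero E] {P : Place L E} {D : Derivation ℤ E E} (h : DGe P D 0) {u : E}
    (hu0 : u ≠ 0) (hu : P.ord u = 1) (hDu : D u = 1) (α : E) (c : L)
    (hc : P.Ge 0 (D α - algebraMap L E c / u)) : c = 0 := by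
  have hcu : P.Ge (-1) (algebraMap L E c / u) := by
    rw [div_eq_mul_inv]
    refine (P.ge_const c).mul' (n := -1) ?_ (by omega)
    rw [P.ge_iff (inv_ne_zero hu0), P.ord_inv, hu]
  by_cases hα : α = 0
  · apply lre_div hu0 hu
    rw [hα, map_zero, zero_sub] at hc
    have := hc.neg
    rwa [neg_neg] at this
  by_cases hn : 0 ≤ P.ord α
  · apply lre_div hu0 hu
    have h1 := h α ((P.ge_iff hα).2 hn)
    have := h1.sub hc
    rwa [sub_sub_cancel] at this
  · exfalso
    have h1 := logder h hu0 hu hDu hα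
    have h2 : P.Ge (-1) (D α) := by
      have := (hc.mono (by omega : (-1 : ℤ) ≤ 0)).add hcu
      rwa [sub_add_cancel] at this
    -- `ord α / u = D α / α - (...)`
    have h3 : P.Ge 0 (D α / α) := by
      rw [div_eq_mul_inv]
      refine h2.mul' (n := - P.ord α) ?_ (by omega)
      rw [P.ge_iff (inv_ne_zero hα), P.ord_inv]
    have h4 : P.Ge 0 ((P.ord α : E) / u) := by
      have := h3.sub h1
      rwa [sub_sub_cancel] at this
    have h5 : (P.ord α : E) / u = algebraMap L E ((P.ord α : ℤ) : L) / u := by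
      simp
    rw [h5] at h4
    have h6 := lre_div hu0 hu _ h4
    have h7 : ((P.ord α : ℤ) : E) = 0 := by
      have : algebraMap L E ((P.ord α : ℤ) : L) = 0 := by rw [h6, map_zero]
      simpa using this
    rw [Int.cast_eq_zero] at h7
    omega

end

theorem lre : LreStmt.{u} := by
  intro k E _ _ _ _ _ _ D hker ι s y m α hy hsum P
  have hchar : CharZero E := charZero_of_injective_algebraMap (algebraMap k E).injective
  obtain ⟨u, hu0, hu⟩ := P.exists_unif
  have hDu : D u ≠ 0 := by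
    intro h0
    obtain ⟨c, hc⟩ := (hker u).1 h0
    rw [← hc, P.ord_const] at hu
    omega
  have hDc : ∀ c : k, D (algebraMap k E c) = 0 := fun c => (hker _).2 ⟨c, rfl⟩
  let D' : Derivation ℤ E E := (D u)⁻¹ • D
  have hD' : ∀ w, D' w = (D u)⁻¹ * D w := fun w => rfl
  have hD'u : D' u = 1 := by rw [hD', inv_mul_cancel₀ hDu]
  have hpres : PresL k D' := by
    intro c
    refine ⟨0, ?_⟩
    rw [hD', hDc, mul_zero, map_zero]
  obtain ⟨cc, ss, -, hbd⟩ := bounded_poles (L := k) D' hpres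
  have htd := (tame_descent hpres (hbd P) (u := u) (e := 1) (B := 0) hu0 hu (by omega)
    (by rw [hD'u]; exact P.ge_one)).1
  have hreg : DGe P D' 0 := htd.mono (by omega)
  have hsum' : ∑ i ∈ s, algebraMap k E (m i) * (D' (y i) / y i) = D' α := by
    rw [hD', ← hsum, Finset.mul_sum]
    refine Finset.sum_congr rfl fun i _ => ?_
    rw [hD']; ring
  apply lre_res hreg hu0 hu hD'u α
  have h1 : D' α - algebraMap k E (∑ i ∈ s, m i * (P.ord (y i) : k)) / u =
      ∑ i ∈ s, algebraMap k E (m i) * (D' (y i) / y i - (P.ord (y i) : E) / u) := by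
    rw [← hsum', map_sum, Finset.sum_div, ← Finset.sum_sub_distrib]
    refine Finset.sum_congr rfl fun i _ => ?_
    rw [map_mul, map_intCast]; ring
  rw [h1]
  refine Place.Ge.sum fun i hi => ?_
  exact (P.ge_const (m i)).mul' (logder hreg hu0 hu hD'u (hy i hi)) (by omega)

end Pool.Agent.PPZ.H58
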