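import Mathlib
import Pool.Agent.Helper1_PGH.Deriv

/-!
# Squad PPZ, module POA, part 1: the computation at a place
-/

set_option autoImplicit false

namespace Pool.Agent.PPZ.H58

open PGH

section

variable {L E : Type*} [Field L] [Field E] [Algebra L E]

theorem poa_split {P : Place L E} {D : Derivation ℤ E E} (h : ∀ y, P.Ge 0 y → P.Ge 1 (D y))
    {u : E} (hu0 : u ≠ 0) (hu : P.ord u = 1) {y : E} (hy : y ≠ 0) :
    P.Ge 1 (D y / y - (P.ord y : E) * (D u / u)) := by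
  have hw0 : y * u ^ (-(P.ord y)) ≠ 0 := mul_ne_zero hy (zpow_ne_zero _ hu0)
  obtain ⟨w, hw⟩ : ∃ w, w = y * u ^ (-(P.ord y)) := ⟨_, rfl⟩
  rw [← hw] at hw0
  have hwo : P.ord w = 0 := by
    rw [hw, P.ord_mul hy (zpow_ne_zero _ hu0), P.ord_zpow, hu]; ring
  have hyw : y = w * u ^ (P.ord y) := by
    rw [hw, mul_assoc, ← zpow_add₀ hu0]; simp
  have hun : u ^ (P.ord y) ≠ 0 := zpow_ne_zero _ hu0
  have h1 : D y / y - (P.ord y : E) * (D u / u) = D w * w⁻¹ := by
    have h2 : D y = w * ((P.ord y : E) * u ^ (P.ord y - 1) * D u) + u ^ (P.ord y) * D w := by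
      conv_lhs => rw [hyw]
      rw [D.leibniz, smul_eq_mul, smul_eq_mul, deriv_zpow D u]
    have h3 : u ^ (P.ord y - 1) = u ^ (P.ord y) / u := by
      rw [zpow_sub_one₀ hu0, div_eq_mul_inv]
    have h4 : D y / y = (w * ((P.ord y : E) * (u ^ (P.ord y) / u) * D u) +
        u ^ (P.ord y) * D w) / (w * u ^ (P.ord y)) := by
      rw [h2, h3, ← hyw]
    rw [h4]
    field_simp
    ring
  rw [h1]
  exact Place.Ge.mul' (h w ((P.ge_iff hw0).2 (by omega)))
    (n := 0) ((P.ge_iff (inv_ne_zero hw0)).2 (by rw [P.ord_inv]; omega)) (by omega)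

variable [IsAlgClosed L] [CharZero L] [FF L E]

theorem poa_core (P : Place L E) (e1 e2 : Derivation ℤ E E) (he1 : PresL L e1)
    (he2 : ∀ c : L, e2 (algebraMap L E c) = 0) {t θ Λ A B : E} (ht0 : t ≠ 0) (ht : P.Ge 1 t)
    (h1t : e1 t = 0) (h2t : e2 t = 1) (hθ0 : θ ≠ 0) (hθ : P.Ge 0 θ) (hΛ : P.Ge 0 Λ)
    (hA : P.Ge 0 A) (hB : P.Ge 0 B)
    (heq : e2 θ + θ * e1 θ = θ * (Λ + 2 * θ * A - 2 * (t⁻¹ + B))) : False := by
  have hchar : CharZero E := charZero_of_injective_algebraMap (algebraMap L E).injective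
  have hte : 1 ≤ P.ord t := (P.ge_iff ht0).1 ht
  -- the derivation `t e2`
  let D2 : Derivation ℤ E E := t • e2
  have hD2 : ∀ w, D2 w = t * e2 w := fun w => rfl
  have hD2t : D2 t = t := by rw [hD2, h2t, mul_one]
  have hpres : PresL L D2 := fun c => ⟨0, by rw [hD2, he2, mul_zero, map_zero]⟩
  obtain ⟨c2, s2, -, hb2⟩ := bounded_poles (L := L) D2 hpres
  obtain ⟨h20, h21⟩ := tame_descent hpres (hb2 P) (u := t) (e := P.ord t) (B := P.ord t) ht0 rfl
    (by omega) (by rw [hD2t]; exact P.ge_ord)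
  have h2 : ∀ y, P.Ge 0 y → P.Ge 1 (D2 y) := by
    intro y hy
    obtain ⟨c, hc⟩ := P.exists_res hy
    have h3 := (h21 _ hc).mono (by omega : (1 : ℤ) ≤ _)
    rwa [map_sub, hD2 (algebraMap L E c), he2, mul_zero, sub_zero] at h3
  -- the derivation `e1`
  obtain ⟨c1, s1, -, hb1⟩ := bounded_poles (L := L) e1 he1
  have h1 : DGe P e1 0 := ((tame_descent he1 (hb1 P) (u := t) (e := P.ord t) (B := P.ord t) ht0 rfl
    (by omega) (by rw [h1t]; exact P.ge_zero _)).1).mono (by omega)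
  obtain ⟨u, hu0, hu⟩ := P.exists_unif
  have ht' := poa_split h2 hu0 hu ht0
  have hθ' := poa_split h2 hu0 hu hθ0
  rw [hD2t, div_self ht0] at ht'
  -- `D2 θ / θ + 2` is small
  have hsm : P.Ge 1 (D2 θ / θ + 2) := by
    have h3 : D2 θ / θ + 2 = t * (Λ + 2 * (θ * A) - 2 * B - e1 θ) := by
      rw [hD2]
      have h4 : e2 θ = θ * (Λ + 2 * θ * A - 2 * (t⁻¹ + B)) - θ * e1 θ := by
        rw [← heq]; ring
      rw [h4]
      field_simp
      ring
    rw [h3]
    have h2' : P.Ge 0 (2 : E) := by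
      have := P.ge_const (2 : L)
      rwa [map_ofNat] at this
    refine ht.mul' (n := 0) ?_ (by omega)
    have h7 : P.Ge 0 (θ * A) := hθ.mul' hA (by omega)
    have h8 : P.Ge 0 (2 * (θ * A)) := h2'.mul' h7 (by omega)
    have h9 : P.Ge 0 (2 * B) := h2'.mul' hB (by omega)
    exact ((hΛ.add h8).sub h9).sub (h1 θ hθ)
  have hn : 0 ≤ P.ord θ := (P.ge_iff hθ0).1 hθ
  -- combine
  have h5 : P.Ge 1 ((P.ord t : E) * (D2 θ / θ + 2) -
      (P.ord t : E) * (D2 θ / θ - (P.ord θ : E) * (D2 u / u)) -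
      (P.ord θ : E) * (-(1 - (P.ord t : E) * (D2 u / u)))) := by
    refine (((P.ge_int _).mul' hsm (by omega)).sub ((P.ge_int _).mul' hθ' (by omega))).sub
      ((P.ge_int _).mul' ht'.neg (by omega))
  have h6 : (P.ord t : E) * (D2 θ / θ + 2) -
      (P.ord t : E) * (D2 θ / θ - (P.ord θ : E) * (D2 u / u)) -
      (P.ord θ : E) * (-(1 - (P.ord t : E) * (D2 u / u))) =
      algebraMap L E ((2 * P.ord t + P.ord θ : ℤ) : L) := by
    rw [map_intCast]
    push_cast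
    ring
  rw [h6] at h5
  apply P.not_ge_one_const _ h5
  rw [Int.cast_ne_zero]
  omega

end

end Pool.Agent.PPZ.H58
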