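import Mathlib
import Pool.Agent.Helper58_PPZ.PoaA
import Pool.Agent.Helper1_PGH.Ht

/-!
# Squad PPZ, module POA, part 2: general lemmas
-/

set_option autoImplicit false

namespace Pool.Agent.PPZ.H58

open PGH IntermediateField
open scoped IntermediateField.algebraAdjoinAdjoin

section

/-- `E` is stable under a derivation which maps a subfield `F` to `E`, if all elements of `E` are
algebraic over `F`. -/
theorem stab {Ω : Type*} [Field Ω] [CharZero Ω] (D : Derivation ℤ Ω Ω) (F E : Subfield Ω)
    (hFE : F ≤ E) (hD : ∀ a ∈ F, D a ∈ E) {y : Ω} (hyE : y ∈ E) (hy : IsAlgebraic F y) :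
    D y ∈ E := by
  have haux : ∀ p : Polynomial F, ∃ w ∈ E, D (Polynomial.aeval y p) = w +
      Polynomial.aeval y (Polynomial.derivative p) * D y := by
    intro p
    induction p using Polynomial.induction_on' with
    | add p q hp hq =>
      obtain ⟨w1, h1, h2⟩ := hp
      obtain ⟨w2, h3, h4⟩ := hq
      refine ⟨w1 + w2, add_mem h1 h3, ?_⟩
      rw [map_add, map_add, h2, h4, map_add, map_add]; ring
    | monomial n a =>
      refine ⟨y ^ n * D (a : Ω), mul_mem (pow_mem hyE n) (hD _ a.2), ?_⟩
      rw [Polynomial.aeval_monomial, Polynomial.derivative_monomial, Polynomial.aeval_monomial,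
        D.leibniz, Derivation.leibniz_pow]
      simp only [smul_eq_mul, nsmul_eq_mul, map_mul, map_natCast]
      change (a : Ω) * _ + _ * D (a : Ω) = _ + ((a : Ω) * _ * _) * _
      ring
  have h1 : IsIntegral F y := hy.isIntegral
  have h2 : Polynomial.aeval y (minpoly F y) = 0 := minpoly.aeval F y
  have h3 : Polynomial.aeval y (Polynomial.derivative (minpoly F y)) ≠ 0 := by
    have hsep : (minpoly F y).Separable := (minpoly.irreducible h1).separable
    exact hsep.aeval_derivative_ne_zero h2
  have h4 : ∀ p : Polynomial F, Polynomial.aeval y p ∈ E := by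
    intro p
    rw [Polynomial.aeval_eq_sum_range]
    refine sum_mem fun i _ => ?_
    change (p.coeff i : Ω) * y ^ i ∈ E
    exact mul_mem (hFE (p.coeff i).2) (pow_mem hyE i)
  obtain ⟨w, hw, h5⟩ := haux (minpoly F y)
  rw [h2, map_zero] at h5
  have h6 : D y = (-w) / Polynomial.aeval y (Polynomial.derivative (minpoly F y)) := by
    rw [eq_div_iff h3]
    linear_combination -h5
  rw [h6]
  exact div_mem (neg_mem hw) (h4 _)

/-- roots of a polynomial with regular coefficients and invertible leading coefficient are
regular -/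
theorem ge_root {L E : Type*} [Field L] [Field E] [Algebra L E] (P : Place L E) {R : Type*}
    [CommRing R] (φ : R →+* E) (hφ : ∀ r, P.Ge 0 (φ r)) (G : Polynomial R)
    (hG : ¬ P.Ge 1 (φ G.leadingCoeff)) {y : E} (hy : G.eval₂ φ y = 0) : P.Ge 0 y := by
  by_contra hcon
  have hy0 : y ≠ 0 := by rintro rfl; exact hcon (P.ge_zero 0)
  rw [P.ge_iff hy0] at hcon
  push Not at hcon
  apply hG
  rw [Polynomial.eval₂_eq_sum_range, Finset.sum_range_succ] at hy
  have hyn : y ^ G.natDegree ≠ 0 := pow_ne_zero _ hy0
  have h1 : φ G.leadingCoeff = -(∑ i ∈ Finset.range G.natDegree,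
      φ (G.coeff i) * (y ^ i * (y ^ G.natDegree)⁻¹)) := by
    have h2 : φ (G.coeff G.natDegree) * y ^ G.natDegree =
        -(∑ i ∈ Finset.range G.natDegree, φ (G.coeff i) * y ^ i) := by
      linear_combination hy
    have h3 : φ G.leadingCoeff = (φ (G.coeff G.natDegree) * y ^ G.natDegree) *
        (y ^ G.natDegree)⁻¹ := by
      rw [mul_assoc, mul_inv_cancel₀ hyn, mul_one]; rfl
    rw [h3, h2, neg_mul, Finset.sum_mul]
    congr 1
    refine Finset.sum_congr rfl fun i _ => ?_
    ring
  rw [h1]
  refine (Place.Ge.sum fun i hi => ?_).neg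
  rw [Finset.mem_range] at hi
  refine (hφ _).mul' (n := 1) ?_ (by omega)
  rw [P.ge_iff (mul_ne_zero (pow_ne_zero _ hy0) (inv_ne_zero hyn)),
    P.ord_mul (pow_ne_zero _ hy0) (inv_ne_zero hyn), P.ord_inv, P.ord_pow, P.ord_pow]
  have h4 : ((G.natDegree : ℤ) - i) * (-P.ord y) ≥ 1 * 1 :=
    mul_le_mul (by omega) (by omega) (by omega) (by omega)
  linarith

theorem ff_adjoin {L K : Type*} [Field L] [Field K] [Algebra L K] {z : K}
    (hz : Transcendental L z) (hK : ∀ y : K, IsAlgebraic (IntermediateField.adjoin L {z}) y)
    (S : Set K) (hS : S.Finite) (hzS : z ∈ S) : FF L (IntermediateField.adjoin L S) where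
  ess := IntermediateField.essFiniteType_iff.2 (IntermediateField.fg_adjoin_of_finite hS)
  trdeg := by
    have h1 : AlgebraicIndependent L (fun _ : Unit => z) :=
      algebraicIndependent_unique_type_iff.2 hz
    have h2 : IsTranscendenceBasis L (fun _ : Unit => z) := by
      rw [h1.isTranscendenceBasis_iff_isAlgebraic]
      have h3 : Algebra.IsAlgebraic (IntermediateField.adjoin L (Set.range fun _ : Unit => z)) K := by
        rw [Set.range_const]; exact ⟨hK⟩
      exact Algebra.IsAlgebraic.trans _ (IntermediateField.adjoin L (Set.range fun _ : Unit => z)) _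
    have h3 : Algebra.trdeg L K = 1 := by
      have := h2.lift_cardinalMk_eq_trdeg
      simp at this
      exact this.symm
    apply le_antisymm
    · rw [← h3]
      exact trdeg_le_of_injective (IntermediateField.adjoin L S).val
        (IntermediateField.adjoin L S).val.injective
    · have h4 : Transcendental L (⟨z, IntermediateField.subset_adjoin _ _ hzS⟩ :
          IntermediateField.adjoin L S) := by
        intro h5
        exact hz (h5.algHom (IntermediateField.adjoin L S).val)
      have h5 : AlgebraicIndependent L (fun _ : Unit => (⟨z, IntermediateField.subset_adjoin _ _ hzS⟩ :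
          IntermediateField.adjoin L S)) := algebraicIndependent_unique_type_iff.2 h4
      have := h5.lift_cardinalMk_le_trdeg
      simpa using this

end

end Pool.Agent.PPZ.H58
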