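import Mathlib
import Pool.Agent.Helper3_PPZ.Defs
import Pool.Agent.Helper58_PPZ.PoaB

/-!
# Squad PPZ, module POA, part 3: reduction to a place
-/

set_option autoImplicit false

namespace Pool.Agent.PPZ.H58

open PGH IntermediateField
open scoped IntermediateField.algebraAdjoinAdjoin

section

/-- restriction of a derivation -/
noncomputable def resD {L K : Type*} [Field L] [Field K] [Algebra L K] (E : IntermediateField L K)
    (D : Derivation ℤ K K) (h : ∀ y ∈ E, D y ∈ E) : Derivation ℤ E E :=
  Derivation.mk' (AddMonoidHom.toIntLinearMap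
    { toFun := fun y : E => (⟨D y, h y y.2⟩ : E)
      map_zero' := by apply Subtype.ext; exact map_zero D
      map_add' := fun a b => by apply Subtype.ext; exact map_add D _ _ })
    (fun a b => by apply Subtype.ext; exact D.leibniz _ _)

theorem resD_coe {L K : Type*} [Field L] [Field K] [Algebra L K] (E : IntermediateField L K)
    (D : Derivation ℤ K K) (h : ∀ y ∈ E, D y ∈ E) (y : E) : ((resD E D h y : E) : K) = D y := rfl

theorem ge_aeval {k L E : Type*} [Field k] [Field L] [Field E] [Algebra k L] [Algebra k E]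
    [Algebra L E] [IsScalarTower k L E] (P : Place L E) {x z β : E} (hx : P.Ge 0 x)
    (hz : P.Ge 0 z) (hβ : P.Ge 0 β) (hzβ : P.Ge 1 (z - β)) (q : MvPolynomial (Fin 2) k) :
    P.Ge 0 (MvPolynomial.aeval ![x, z] q) ∧ P.Ge 0 (MvPolynomial.aeval ![x, β] q) ∧
      P.Ge 1 (MvPolynomial.aeval ![x, z] q - MvPolynomial.aeval ![x, β] q) := by
  have hc : ∀ c : k, P.Ge 0 (algebraMap k E c) := by
    intro c
    rw [IsScalarTower.algebraMap_apply k L E]
    exact P.ge_const _
  induction q using MvPolynomial.induction_on with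
  | C c =>
    rw [← MvPolynomial.algebraMap_eq, AlgHom.commutes, AlgHom.commutes, sub_self]
    exact ⟨hc c, hc c, P.ge_zero _⟩
  | add p q hp hq =>
    obtain ⟨h1, h2, h3⟩ := hp
    obtain ⟨h4, h5, h6⟩ := hq
    rw [map_add, map_add]
    refine ⟨h1.add h4, h2.add h5, ?_⟩
    have := h3.add h6
    rwa [show MvPolynomial.aeval ![x, z] p + MvPolynomial.aeval ![x, z] q -
      (MvPolynomial.aeval ![x, β] p + MvPolynomial.aeval ![x, β] q) =
      MvPolynomial.aeval ![x, z] p - MvPolynomial.aeval ![x, β] p +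
      (MvPolynomial.aeval ![x, z] q - MvPolynomial.aeval ![x, β] q) from by ring]
  | mul_X p i hp =>
    obtain ⟨h1, h2, h3⟩ := hp
    rw [map_mul, map_mul, MvPolynomial.aeval_X, MvPolynomial.aeval_X]
    have hi : P.Ge 0 ((![x, z] : Fin 2 → E) i) ∧ P.Ge 0 ((![x, β] : Fin 2 → E) i) ∧
        P.Ge 1 ((![x, z] : Fin 2 → E) i - (![x, β] : Fin 2 → E) i) := by
      fin_cases i
      · refine ⟨hx, hx, ?_⟩
        change P.Ge 1 (x - x)
        rw [sub_self]; exact P.ge_zero _
      · exact ⟨hz, hβ, hzβ⟩
    obtain ⟨h4, h5, h6⟩ := hi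
    refine ⟨h1.mul' h4 (by omega), h2.mul' h5 (by omega), ?_⟩
    have h7 := (h3.mul' (l := 1) h4 (by omega)).add (h2.mul' (l := 1) h6 (by omega))
    rwa [show MvPolynomial.aeval ![x, z] p * (![x, z] : Fin 2 → E) i -
      MvPolynomial.aeval ![x, β] p * (![x, β] : Fin 2 → E) i =
      (MvPolynomial.aeval ![x, z] p - MvPolynomial.aeval ![x, β] p) * (![x, z] : Fin 2 → E) i +
      MvPolynomial.aeval ![x, β] p * ((![x, z] : Fin 2 → E) i - (![x, β] : Fin 2 → E) i)
      from by ring]

theorem aeval_ne {k L : Type*} [Field k] [Field L] [Algebra k L] {x : L}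
    (hx : Transcendental k x) (β : k) (q : MvPolynomial (Fin 2) k)
    (hq : MvPolynomial.aeval ![MvPolynomial.X 0, MvPolynomial.C β] q ≠
      (0 : MvPolynomial (Fin 2) k)) :
    MvPolynomial.aeval ![x, algebraMap k L β] q ≠ 0 := by
  intro h0
  apply hq
  let ψ : MvPolynomial (Fin 2) k →ₐ[k] Polynomial k :=
    MvPolynomial.aeval ![Polynomial.X, Polynomial.C β]
  have h1 : (Polynomial.aeval x).comp ψ = MvPolynomial.aeval ![x, algebraMap k L β] := by
    apply MvPolynomial.algHom_ext
    intro i
    fin_cases i <;> simp [ψ]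
  have h2 : (Polynomial.aeval (MvPolynomial.X 0 : MvPolynomial (Fin 2) k)).comp ψ =
      MvPolynomial.aeval ![MvPolynomial.X 0, MvPolynomial.C β] := by
    apply MvPolynomial.algHom_ext
    intro i
    fin_cases i <;> simp [ψ]
  rw [← h1, AlgHom.comp_apply] at h0
  have h3 : ψ q = 0 := by
    by_contra hne
    exact hx ⟨ψ q, hne, h0⟩
  rw [← h2, AlgHom.comp_apply, h3, map_zero]

theorem poa_mid {k L K : Type*} [Field k] [Field L] [Field K] [Algebra k L] [Algebra k K]
    [Algebra L K] [IsScalarTower k L K] [IsAlgClosed L] [CharZero L] [CharZero K] {N₁ N₂ : ℕ}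
    (a : Fin N₁ → k) (b : Fin N₂ → k) (hb : Function.Injective b)
    (x : L) (hx : Transcendental k x) (z θ Λ : K) (hz : Transcendental L z)
    (hK : ∀ y : K, IsAlgebraic (IntermediateField.adjoin L {z}) y)
    (e1 e2 : Derivation ℤ K K) (he1 : ∀ c : L, ∃ d : L, e1 (algebraMap L K c) = algebraMap L K d)
    (he1k : ∀ c : k, e1 (algebraMap k K c) = 0)
    (he2 : ∀ c : L, e2 (algebraMap L K c) = 0)
    (h1z : e1 z = 0) (h2z : e2 z = 1) (hθ0 : θ ≠ 0)
    (heq : e2 θ + θ * e1 θ = θ * (Λ + 2 * θ * (∑ i, (algebraMap L K x - algebraMap k K (a i))⁻¹) -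
      2 * ∑ j, (z - algebraMap k K (b j))⁻¹))
    (j : Fin N₂) (c₁ c₂ : k) (hc : c₁ ≠ c₂)
    (h1 : IntAt (algebraMap L K x) z (b j) (Λ + algebraMap k K c₁ * θ))
    (h2 : IntAt (algebraMap L K x) z (b j) (Λ + algebraMap k K c₂ * θ)) : False := by
  classical
  obtain ⟨E, hE⟩ : ∃ E : IntermediateField L K, E = IntermediateField.adjoin L {z, θ, Λ} :=
    ⟨_, rfl⟩
  have hzE : z ∈ E := by rw [hE]; exact IntermediateField.subset_adjoin _ _ (by simp)
  have hθE : θ ∈ E := by rw [hE]; exact IntermediateField.subset_adjoin _ _ (by simp)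
  have hΛE : Λ ∈ E := by rw [hE]; exact IntermediateField.subset_adjoin _ _ (by simp)
  have hFF : FF L E := by
    rw [hE]
    exact ff_adjoin hz hK _ (Set.toFinite _) (by simp)
  have hstab : ∀ D : Derivation ℤ K K, (∀ c : L, D (algebraMap L K c) ∈ E) → D z ∈ E →
      ∀ y ∈ E, D y ∈ E := by
    intro D hDL hDz y hy
    refine stab D (IntermediateField.adjoin L {z}).toSubfield E.toSubfield ?_ ?_ hy (hK y)
    · intro w hw
      have hle : IntermediateField.adjoin L {z} ≤ E := by
        rw [IntermediateField.adjoin_le_iff]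
        intro v hv
        rw [Set.mem_singleton_iff] at hv
        rw [hv]; exact hzE
      exact hle hw
    · intro w hw
      have hle : IntermediateField.adjoin L {z} ≤ E := by
        rw [IntermediateField.adjoin_le_iff]
        intro v hv
        rw [Set.mem_singleton_iff] at hv
        rw [hv]; exact hzE
      change D w ∈ E
      change w ∈ IntermediateField.adjoin L {z} at hw
      induction hw using IntermediateField.adjoin_induction with
      | mem v hv => rw [Set.mem_singleton_iff] at hv; rw [hv]; exact hDz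
      | algebraMap c => exact hDL c
      | add u v _ _ hu hv => rw [map_add]; exact add_mem hu hv
      | mul u v hu' hv' hu hv =>
        rw [D.leibniz, smul_eq_mul, smul_eq_mul]
        exact add_mem (mul_mem (hle hu') hv) (mul_mem (hle hv') hu)
      | inv u hu' hu =>
        rw [D.leibniz_inv, smul_eq_mul]
        exact mul_mem (neg_mem (pow_mem (inv_mem (hle hu')) 2)) hu
  have hs1 : ∀ y ∈ E, e1 y ∈ E := by
    refine hstab e1 (fun c => ?_) (by rw [h1z]; exact zero_mem _)
    obtain ⟨d, hd⟩ := he1 c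
    rw [hd]; exact E.algebraMap_mem d
  have hs2 : ∀ y ∈ E, e2 y ∈ E := by
    refine hstab e2 (fun c => ?_) (by rw [h2z]; exact one_mem _)
    rw [he2]; exact zero_mem _
  let zE : E := ⟨z, hzE⟩
  let θE : E := ⟨θ, hθE⟩
  let ΛE : E := ⟨Λ, hΛE⟩
  let xE : E := algebraMap L E x
  have hzEt : Transcendental L zE := by
    intro h5
    exact hz (h5.algHom E.val)
  obtain ⟨P, hP⟩ := exists_zero hzEt (algebraMap k L (b j))
  have hbE : ∀ l, algebraMap L E (algebraMap k L (b l)) = algebraMap k E (b l) := fun l =>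
    (IsScalarTower.algebraMap_apply k L E (b l)).symm
  rw [hbE] at hP
  have hck : ∀ c : k, P.Ge 0 (algebraMap k E c) := by
    intro c
    rw [IsScalarTower.algebraMap_apply k L E]
    exact P.ge_const _
  have hzE0 : P.Ge 0 zE := by
    have := (hP.mono (by omega : (0 : ℤ) ≤ 1)).add (hck (b j))
    rwa [sub_add_cancel] at this
  -- integral elements are regular
  have hint : ∀ y : E, IntAt (algebraMap L K x) z (b j) (y : K) → P.Ge 0 y := by
    intro y hy
    obtain ⟨G, hG1, hG2⟩ := hy
    have hφ : (algebraMap E K).comp (MvPolynomial.aeval ![xE, zE] :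
        MvPolynomial (Fin 2) k →ₐ[k] E).toRingHom = (MvPolynomial.aeval ![algebraMap L K x, z] :
        MvPolynomial (Fin 2) k →ₐ[k] K).toRingHom := by
      apply MvPolynomial.ringHom_ext
      · intro c
        simp only [RingHom.comp_apply, AlgHom.toRingHom_eq_coe, RingHom.coe_coe,
          MvPolynomial.algHom_C]
        rfl
      · intro i
        simp only [RingHom.comp_apply, AlgHom.toRingHom_eq_coe, RingHom.coe_coe,
          MvPolynomial.aeval_X]
        fin_cases i <;> rfl
    have hG3 : G.eval₂ (MvPolynomial.aeval ![xE, zE] : MvPolynomial (Fin 2) k →ₐ[k] E).toRingHom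
        y = 0 := by
      apply (algebraMap E K).injective
      rw [map_zero, Polynomial.hom_eval₂, hφ]
      exact hG2
    refine ge_root P _ (fun r => ?_) G ?_ hG3
    · exact (ge_aeval P (P.ge_const x) hzE0 (hck (b j)) hP r).1
    · intro h5
      have h6 := (ge_aeval P (P.ge_const x) hzE0 (hck (b j)) hP G.leadingCoeff).2.2
      have h7 := h5.sub h6
      have h8 : (MvPolynomial.aeval ![algebraMap L E x, zE] : MvPolynomial (Fin 2) k →ₐ[k] E).toRingHom
          G.leadingCoeff - (MvPolynomial.aeval ![algebraMap L E x, zE] G.leadingCoeff -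
          MvPolynomial.aeval ![algebraMap L E x, algebraMap k E (b j)] G.leadingCoeff) =
          algebraMap L E (MvPolynomial.aeval ![x, algebraMap k L (b j)] G.leadingCoeff) := by
        have h9 : (IsScalarTower.toAlgHom k L E).comp
            (MvPolynomial.aeval ![x, algebraMap k L (b j)]) =
            MvPolynomial.aeval ![algebraMap L E x, algebraMap k E (b j)] := by
          apply MvPolynomial.algHom_ext
          intro i
          rw [AlgHom.comp_apply, MvPolynomial.aeval_X, MvPolynomial.aeval_X]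
          fin_cases i
          · rfl
          · exact hbE j
        rw [← h9]
        change MvPolynomial.aeval ![algebraMap L E x, zE] G.leadingCoeff - _ = _
        rw [sub_sub_cancel]
        rfl
      rw [h8] at h7
      exact P.not_ge_one_const (aeval_ne hx (b j) _ hG1) h7
  have hy1 := hint (ΛE + algebraMap k E c₁ * θE) h1
  have hy2 := hint (ΛE + algebraMap k E c₂ * θE) h2
  have hcE : algebraMap k E (c₁ - c₂) ≠ 0 := by
    intro h0
    exact hc (sub_eq_zero.1 ((map_eq_zero _).1 h0))
  have hθP : P.Ge 0 θE := by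
    have h5 : θE = algebraMap k E ((c₁ - c₂)⁻¹) *
        ((ΛE + algebraMap k E c₁ * θE) - (ΛE + algebraMap k E c₂ * θE)) := by
      rw [map_inv₀]
      have h6 : (ΛE + algebraMap k E c₁ * θE) - (ΛE + algebraMap k E c₂ * θE) =
          algebraMap k E (c₁ - c₂) * θE := by
        rw [map_sub]; ring
      rw [h6, ← mul_assoc, inv_mul_cancel₀ hcE, one_mul]
    rw [h5]
    exact (hck _).mul' (hy1.sub hy2) (by omega)
  have hΛP : P.Ge 0 ΛE := by
    have h5 : ΛE = (ΛE + algebraMap k E c₁ * θE) - algebraMap k E c₁ * θE := by ring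
    rw [h5]
    exact hy1.sub ((hck _).mul' hθP (by omega))
  -- the equation in `E`
  have ht0 : zE - algebraMap k E (b j) ≠ 0 := by
    intro h0
    apply transcendental_iff.1 hzEt (algebraMap k L (b j))
    rw [hbE]; exact (sub_eq_zero.1 h0).symm
  refine poa_core P (resD E e1 hs1) (resD E e2 hs2) ?_ ?_ (t := zE - algebraMap k E (b j))
    (θ := θE) (Λ := ΛE) (A := ∑ i, (xE - algebraMap k E (a i))⁻¹)
    (B := ∑ l ∈ Finset.univ.erase j, (zE - algebraMap k E (b l))⁻¹) ht0 hP ?_ ?_ ?_ hθP hΛP ?_ ?_ ?_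
  · intro c
    obtain ⟨d, hd⟩ := he1 c
    exact ⟨d, Subtype.ext hd⟩
  · intro c
    exact Subtype.ext (he2 c)
  · apply Subtype.ext
    change e1 (z - algebraMap k K (b j)) = 0
    rw [map_sub, h1z, he1k, sub_zero]
  · apply Subtype.ext
    change e2 (z - algebraMap k K (b j)) = 1
    rw [map_sub, h2z, IsScalarTower.algebraMap_apply k L K, he2, sub_zero]
  · intro h0
    exact hθ0 (congrArg Subtype.val h0)
  · refine Place.Ge.sum fun i _ => ?_
    have h5 : (xE - algebraMap k E (a i))⁻¹ = algebraMap L E ((x - algebraMap k L (a i))⁻¹) := by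
      rw [map_inv₀, map_sub, ← IsScalarTower.algebraMap_apply k L E]
    rw [h5]; exact P.ge_const _
  · refine Place.Ge.sum fun l hl => ?_
    have hlj : b l ≠ b j := fun h0 => (Finset.ne_of_mem_erase hl) (hb h0)
    have h5 : P.Ge 1 ((zE - algebraMap k E (b l)) - algebraMap L E (algebraMap k L (b j - b l))) := by
      rw [← IsScalarTower.algebraMap_apply k L E, map_sub]
      have h6 : zE - algebraMap k E (b l) - (algebraMap k E (b j) - algebraMap k E (b l)) =
        zE - algebraMap k E (b j) := by ring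
      rw [h6]; exact hP
    have h7 : algebraMap k L (b j - b l) ≠ 0 := by
      intro h0
      exact hlj (sub_eq_zero.1 ((map_eq_zero _).1 h0)).symm
    have h8 : ¬ P.Ge 1 (zE - algebraMap k E (b l)) := by
      intro h9
      have := h9.sub h5
      rw [sub_sub_cancel] at this
      exact P.not_ge_one_const h7 this
    have h9 : zE - algebraMap k E (b l) ≠ 0 := by
      intro h0
      apply h8; rw [h0]; exact P.ge_zero _
    rw [P.ge_iff h9] at h8
    rw [P.ge_iff (inv_ne_zero h9), P.ord_inv]
    omega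
  · apply Subtype.ext
    have h5 : (∑ j, (z - algebraMap k K (b j))⁻¹) = (z - algebraMap k K (b j))⁻¹ +
        ∑ l ∈ Finset.univ.erase j, (z - algebraMap k K (b l))⁻¹ :=
      (Finset.add_sum_erase _ _ (Finset.mem_univ j)).symm
    rw [h5] at heq
    have h6 : ∀ (s : Finset (Fin N₁)), ((∑ i ∈ s, (xE - algebraMap k E (a i))⁻¹ : E) : K) =
        ∑ i ∈ s, (algebraMap L K x - algebraMap k K (a i))⁻¹ := by
      intro s
      rw [← IntermediateField.algebraMap_apply, map_sum]
      refine Finset.sum_congr rfl fun i _ => ?_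
      rw [map_inv₀, map_sub]; rfl
    have h7 : ∀ (s : Finset (Fin N₂)), ((∑ l ∈ s, (zE - algebraMap k E (b l))⁻¹ : E) : K) =
        ∑ l ∈ s, (z - algebraMap k K (b l))⁻¹ := by
      intro s
      rw [← IntermediateField.algebraMap_apply, map_sum]
      refine Finset.sum_congr rfl fun i _ => ?_
      rw [map_inv₀, map_sub]; rfl
    change e2 θ + θ * e1 θ = θ * (Λ + 2 * θ * ((∑ i, (xE - algebraMap k E (a i))⁻¹ : E) : K) -
      2 * ((z - algebraMap k K (b j))⁻¹ +
        ((∑ l ∈ Finset.univ.erase j, (zE - algebraMap k E (b l))⁻¹ : E) : K)))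
    rw [h6, h7]
    exact heq

end

end Pool.Agent.PPZ.H58
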