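import Mathlib
import Pool.Agent.Helper3_PPZ.Stmts
import Pool.Agent.Helper58_PPZ.PoaC
import Pool.Agent.Helper1_PGH.DerivExt

/-!
# Squad PPZ, module POA
-/

set_option autoImplicit false

universe u

namespace Pool.Agent.PPZ.H58

open PGH IntermediateField
open scoped IntermediateField.algebraAdjoinAdjoin

section

/-- the theorem over an algebraically closed field `K` -/
theorem poa_closed {k K Kz : Type*} [Field k] [CharZero k] [Field K] [Algebra k K] [IsAlgClosed K]
    [CharZero K] [Field Kz] [Algebra Kz K] (hKz : ∀ y : K, IsAlgebraic Kz y) {N₁ N₂ : ℕ}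
    (a : Fin N₁ → k) (b : Fin N₂ → k) (hb : Function.Injective b) (x z θ Λ : K)
    (hind : AlgebraicIndependent k ![x, z])
    (hgen : ∀ (S : Subfield K), (∀ c : k, algebraMap k K c ∈ S) → x ∈ S → z ∈ S →
      ∀ c : Kz, algebraMap Kz K c ∈ S)
    (hθ0 : θ ≠ 0) (D : Derivation ℤ K K) (hDk : ∀ c : k, D (algebraMap k K c) = 0)
    (hDx : D x = θ) (hDz : D z = 1)
    (heq : D θ = θ * (Λ + 2 * θ * (∑ i, (x - algebraMap k K (a i))⁻¹) -
      2 * ∑ j, (z - algebraMap k K (b j))⁻¹)) (j : Fin N₂) (c₁ c₂ : k) (hc : c₁ ≠ c₂)
    (h1 : IntAt x z (b j) (Λ + algebraMap k K c₁ * θ))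
    (h2 : IntAt x z (b j) (Λ + algebraMap k K c₂ * θ)) : False := by
  classical
  have hzt : Transcendental (IntermediateField.adjoin k {x}) z := by
    rw [IntermediateField.transcendental_adjoin_iff]
    have := hind.transcendental_adjoin (s := {0}) (i := 1) (by simp)
    rwa [Set.image_singleton] at this
  have hxt : Transcendental (IntermediateField.adjoin k {z}) x := by
    rw [IntermediateField.transcendental_adjoin_iff]
    have := hind.transcendental_adjoin (s := {1}) (i := 0) (by simp)
    rwa [Set.image_singleton] at this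
  have hxk : Transcendental k x := by
    have := hind.transcendental 0
    exact this
  -- the field `L`
  let F0 : IntermediateField k K := IntermediateField.adjoin k {x}
  let L : IntermediateField F0 K := algebraicClosure F0 K
  have hLc : IsAlgClosed L := IsAlgClosure.isAlgClosed F0
  have hL0 : CharZero L := charZero_of_injective_algebraMap (algebraMap F0 L).injective
  have hzL : Transcendental L z := hzt.algebraicClosure
  have hxF0 : x ∈ F0 := IntermediateField.subset_adjoin _ _ (Set.mem_singleton x)
  let xL : L := algebraMap F0 L ⟨x, hxF0⟩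
  have hxL : algebraMap L K xL = x := rfl
  have hT : IsScalarTower k L K := IsScalarTower.of_algebraMap_eq (fun c => rfl)
  have hxLk : Transcendental k xL := by
    intro h5
    apply hxk
    rw [← hxL]
    exact h5.algebraMap
  have hLz : ∀ y : K, IsAlgebraic (IntermediateField.adjoin L {z}) y := by
    intro y
    have hmem : ∀ c : Kz, algebraMap Kz K c ∈ IntermediateField.adjoin L {z} := by
      refine hgen (IntermediateField.adjoin L {z}).toSubfield ?_ ?_ ?_
      · intro c
        exact (IntermediateField.adjoin L {z}).algebraMap_mem (algebraMap k L c)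
      · exact (IntermediateField.adjoin L {z}).algebraMap_mem xL
      · exact IntermediateField.subset_adjoin _ _ (Set.mem_singleton z)
    let φ : Kz →+* IntermediateField.adjoin L {z} :=
      { toFun := fun c => ⟨algebraMap Kz K c, hmem c⟩
        map_one' := by apply Subtype.ext; exact map_one _
        map_zero' := by apply Subtype.ext; exact map_zero _
        map_add' := by intro a b; apply Subtype.ext; exact map_add _ _ _
        map_mul' := by intro a b; apply Subtype.ext; exact map_mul _ _ _ }
    exact (hKz y).ringHom_of_comp_eq φ (RingHom.id K) φ.injective rfl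
  -- the derivations
  obtain ⟨d2, hd2⟩ := exists_deriv L K hzL
  obtain ⟨d1, hd1⟩ := exists_deriv (IntermediateField.adjoin k {z}) K hxt
  let e2 : Derivation ℤ K K := d2.restrictScalars ℤ
  let e1 : Derivation ℤ K K := d1.restrictScalars ℤ
  have he2L : ∀ c : L, e2 (algebraMap L K c) = 0 := fun c => d2.map_algebraMap c
  have he2z : e2 z = 1 := hd2
  have he1x : e1 x = 1 := hd1
  have he1z : e1 z = 0 := d1.map_algebraMap
    (⟨z, IntermediateField.subset_adjoin _ _ (Set.mem_singleton z)⟩ : IntermediateField.adjoin k {z})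
  have he1k : ∀ c : k, e1 (algebraMap k K c) = 0 := fun c =>
    d1.map_algebraMap (algebraMap k (IntermediateField.adjoin k {z}) c)
  have he2k : ∀ c : k, e2 (algebraMap k K c) = 0 := fun c => d2.map_algebraMap (algebraMap k L c)
  have he2x : e2 x = 0 := he2L xL
  have he1L : ∀ c : L, ∃ d : L, e1 (algebraMap L K c) = algebraMap L K d := by
    intro c
    have h5 : e1 (c : K) ∈ L.toSubfield := by
      refine stab e1 F0.toSubfield L.toSubfield ?_ ?_ c.2 ?_
      · intro w hw
        exact L.algebraMap_mem (⟨w, hw⟩ : F0)
      · intro w hw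
        have hle : ∀ v ∈ F0, v ∈ L := fun v hv => L.algebraMap_mem (⟨v, hv⟩ : F0)
        change e1 w ∈ L
        change w ∈ IntermediateField.adjoin k {x} at hw
        induction hw using IntermediateField.adjoin_induction with
        | mem v hv => rw [Set.mem_singleton_iff] at hv; rw [hv, he1x]; exact one_mem _
        | algebraMap c => rw [he1k]; exact zero_mem _
        | add u v _ _ hu hv => rw [map_add]; exact add_mem hu hv
        | mul u v hu' hv' hu hv =>
          rw [e1.leibniz, smul_eq_mul, smul_eq_mul]
          exact add_mem (mul_mem (hle _ hu') hv) (mul_mem (hle _ hv') hu)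
        | inv u hu' hu =>
          rw [e1.leibniz_inv, smul_eq_mul]
          exact mul_mem (neg_mem (pow_mem (inv_mem (hle _ hu')) 2)) hu
      · exact (Algebra.IsAlgebraic.isAlgebraic (R := F0) c).algebraMap
    exact ⟨⟨e1 (c : K), h5⟩, rfl⟩
  -- `D = e2 + θ e1`
  have hD : ∀ y, D y = e2 y + θ * e1 y := by
    intro y
    let ε : Derivation ℤ K K := D - e2 - θ • e1
    have hε : ∀ w, ε w = D w - e2 w - θ * e1 w := fun w => rfl
    have hmem : ∀ c : Kz, algebraMap Kz K c ∈ constField ε := by
      refine hgen (constField ε) ?_ ?_ ?_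
      · intro c
        rw [mem_constField, hε, hDk, he1k, he2k]; ring
      · rw [mem_constField, hε, hDx, he1x, he2x]; ring
      · rw [mem_constField, hε, hDz, he1z, he2z]; ring
    let φ : Kz →+* constField ε :=
      { toFun := fun c => ⟨algebraMap Kz K c, hmem c⟩
        map_one' := by apply Subtype.ext; exact map_one _
        map_zero' := by apply Subtype.ext; exact map_zero _
        map_add' := by intro a b; apply Subtype.ext; exact map_add _ _ _
        map_mul' := by intro a b; apply Subtype.ext; exact map_mul _ _ _ }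
    have h5 : ε y = 0 := deriv_zero_of_isAlgebraic_const ε
      ((hKz y).ringHom_of_comp_eq φ (RingHom.id K) φ.injective rfl)
    rw [hε] at h5
    linear_combination h5
  refine poa_mid (k := k) (L := L) (K := K) a b hb xL hxLk z θ Λ hzL hLz e1 e2 he1L he1k he2L he1z
    he2z hθ0 ?_ j c₁ c₂ hc h1 h2
  rw [← hD]
  exact heq

end

theorem poa : PoaStmt.{u} := by
  intro k K _ _ _ _ N₁ N₂ a b hb x z θ Λ hind halg hθ0 D hDx hDz heq j c₁ c₂ hc h1 h2
  have hK0 : CharZero K := charZero_of_injective_algebraMap (algebraMap k K).injective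
  let Ω := AlgebraicClosure K
  have hΩ0 : CharZero Ω := charZero_of_injective_algebraMap (algebraMap K Ω).injective
  have : Algebra.FormallyEtale K Ω := Algebra.FormallyEtale.of_isSeparable K Ω
  obtain ⟨D', hD'⟩ := exists_deriv_ext k K Ω Ω ((Algebra.linearMap K Ω).compDer D)
  have hD'' : ∀ y : K, D' (algebraMap K Ω y) = algebraMap K Ω (D y) := fun y => by
    rw [hD']; rfl
  let K1 : IntermediateField k K := IntermediateField.adjoin k {x, z}
  have hK1 : Algebra.IsAlgebraic K1 K := ⟨halg⟩
  have hK2 : Algebra.IsAlgebraic K1 Ω := Algebra.IsAlgebraic.trans K1 K Ω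
  have hcomp : ∀ c : k, algebraMap K Ω (algebraMap k K c) = algebraMap k Ω c := fun c =>
    (IsScalarTower.algebraMap_apply k K Ω c).symm
  have hint : ∀ (β : k) (y : K), IntAt x z β y →
      IntAt (algebraMap K Ω x) (algebraMap K Ω z) β (algebraMap K Ω y) := by
    rintro β y ⟨G, hG1, hG2⟩
    refine ⟨G, hG1, ?_⟩
    have hφ : (algebraMap K Ω).comp (MvPolynomial.aeval ![x, z] :
        MvPolynomial (Fin 2) k →ₐ[k] K).toRingHom = (MvPolynomial.aeval
          ![algebraMap K Ω x, algebraMap K Ω z] : MvPolynomial (Fin 2) k →ₐ[k] Ω).toRingHom := by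
      apply MvPolynomial.ringHom_ext
      · intro c
        simp only [RingHom.comp_apply, AlgHom.toRingHom_eq_coe, RingHom.coe_coe,
          MvPolynomial.algHom_C]
        exact hcomp c
      · intro i
        simp only [RingHom.comp_apply, AlgHom.toRingHom_eq_coe, RingHom.coe_coe,
          MvPolynomial.aeval_X]
        fin_cases i <;> rfl
    rw [← hφ, ← Polynomial.hom_eval₂, hG2, map_zero]
  refine poa_closed (k := k) (K := Ω) (Kz := K1) (fun y => hK2.isAlgebraic y) a b hb
    (algebraMap K Ω x) (algebraMap K Ω z) (algebraMap K Ω θ) (algebraMap K Ω Λ) ?_ ?_ ?_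
    (D'.restrictScalars ℤ) ?_ ?_ ?_ ?_ j c₁ c₂ hc ?_ ?_
  · have h5 := hind.map' (f := IsScalarTower.toAlgHom k K Ω) (algebraMap K Ω).injective
    have h6 : (IsScalarTower.toAlgHom k K Ω : K → Ω) ∘ ![x, z] =
        ![algebraMap K Ω x, algebraMap K Ω z] := by
      funext i; fin_cases i <;> rfl
    rw [h6] at h5
    exact h5
  · intro S hSk hSx hSz c
    obtain ⟨c, hc⟩ := c
    change algebraMap K Ω c ∈ S
    change c ∈ IntermediateField.adjoin k {x, z} at hc
    induction hc using IntermediateField.adjoin_induction with
    | mem v hv =>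
      rcases hv with hv | hv
      · rw [hv]; exact hSx
      · rw [Set.mem_singleton_iff] at hv; rw [hv]; exact hSz
    | algebraMap c => rw [hcomp]; exact hSk c
    | add u v _ _ hu hv => rw [map_add]; exact add_mem hu hv
    | mul u v _ _ hu hv => rw [map_mul]; exact mul_mem hu hv
    | inv u _ hu => rw [map_inv₀]; exact inv_mem hu
  · intro h0
    exact hθ0 ((map_eq_zero _).1 h0)
  · intro c
    exact D'.map_algebraMap c
  · change D' (algebraMap K Ω x) = _
    rw [hD'', hDx]
  · change D' (algebraMap K Ω z) = _
    rw [hD'', hDz, map_one]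
  · change D' (algebraMap K Ω θ) = _
    rw [hD'', heq]
    simp only [map_mul, map_add, map_sub, map_sum, map_inv₀, map_ofNat, hcomp]
  · have := hint (b j) _ h1
    rwa [map_add, map_mul, hcomp] at this
  · have := hint (b j) _ h2
    rwa [map_add, map_mul, hcomp] at this

end Pool.Agent.PPZ.H58
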