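import Mathlib
import Pool.Agent.Helper3_PPZ.Stmts
import Pool.Agent.Helper1_PGH.Height

/-!
# Squad PPZ, module REL, part 1: values at a place, pole bounds
-/

set_option autoImplicit false

universe u

namespace Pool.Agent.PPZ.H58

open PGH

section

variable {L E : Type*} [Field L] [Field E] [Algebra L E]

/-- the residue of `y` is `c` -/
def Rs (P : Place L E) (y : E) (c : L) : Prop := P.Ge 1 (y - algebraMap L E c)

theorem Rs.ge {P : Place L E} {y : E} {c : L} (h : Rs P y c) : P.Ge 0 y :=
  P.ge_zero_of_res h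

theorem Rs.const (P : Place L E) (c : L) : Rs P (algebraMap L E c) c := by
  unfold Rs; rw [sub_self]; exact P.ge_zero _

theorem Rs.add {P : Place L E} {y y' : E} {c c' : L} (h : Rs P y c) (h' : Rs P y' c') :
    Rs P (y + y') (c + c') := by
  unfold Rs at *
  have := Place.Ge.add h h'
  rwa [show y - algebraMap L E c + (y' - algebraMap L E c') =
    y + y' - algebraMap L E (c + c') from by rw [map_add]; ring] at this

theorem Rs.sub {P : Place L E} {y y' : E} {c c' : L} (h : Rs P y c) (h' : Rs P y' c') :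
    Rs P (y - y') (c - c') := by
  unfold Rs at *
  have := Place.Ge.sub h h'
  rwa [show y - algebraMap L E c - (y' - algebraMap L E c') =
    y - y' - algebraMap L E (c - c') from by rw [map_sub]; ring] at this

theorem Rs.mul {P : Place L E} {y y' : E} {c c' : L} (h : Rs P y c) (h' : Rs P y' c') :
    Rs P (y * y') (c * c') := by
  have h1 := (Place.Ge.mul' h h'.ge (by omega : (1 : ℤ) ≤ _)).add
    (Place.Ge.mul' (P.ge_const c) h' (by omega : (1 : ℤ) ≤ _))
  unfold Rs
  rwa [show (y - algebraMap L E c) * y' + algebraMap L E c * (y' - algebraMap L E c') =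
    y * y' - algebraMap L E (c * c') from by rw [map_mul]; ring] at h1

theorem Rs.one (P : Place L E) : Rs P (1 : E) (1 : L) := by
  have := Rs.const P (1 : L)
  rwa [map_one] at this

theorem Rs.pow {P : Place L E} {y : E} {c : L} (h : Rs P y c) (n : ℕ) : Rs P (y ^ n) (c ^ n) := by
  induction n with
  | zero => rw [pow_zero, pow_zero]; exact Rs.one P
  | succ n ih => rw [pow_succ, pow_succ]; exact ih.mul h

theorem Rs.ne {P : Place L E} {y : E} {c : L} (h : Rs P y c) (hc : c ≠ 0) : y ≠ 0 := by
  rintro rfl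
  unfold Rs at h
  rw [zero_sub] at h
  have := h.neg
  rw [neg_neg] at this
  exact P.not_ge_one_const hc this

theorem Rs.inv {P : Place L E} {y : E} {c : L} (h : Rs P y c) (hc : c ≠ 0) : Rs P y⁻¹ c⁻¹ := by
  have hy := h.ne hc
  have hc' : algebraMap L E c ≠ 0 := fun h0 => hc ((map_eq_zero _).1 h0)
  have h0 : P.ord y ≤ 0 := by
    by_contra hcon
    push Not at hcon
    have h1 : P.Ge 1 y := (P.ge_iff hy).2 (by omega)
    have h2 := h1.sub h
    rw [sub_sub_cancel] at h2
    exact P.not_ge_one_const hc h2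
  have h3 : P.Ge 0 y⁻¹ := (P.ge_iff (inv_ne_zero hy)).2 (by rw [P.ord_inv]; omega)
  have h4 : y⁻¹ - algebraMap L E c⁻¹ = -(y - algebraMap L E c) * (y⁻¹ * algebraMap L E c⁻¹) := by
    rw [map_inv₀]
    field_simp
    ring
  unfold Rs
  rw [h4]
  exact h.neg.mul' (h3.mul' (l := 0) (P.ge_const _) (by omega)) (by omega)

theorem Rs.zpow {P : Place L E} {y : E} {c : L} (h : Rs P y c) (hc : c ≠ 0) (n : ℤ) :
    Rs P (y ^ n) (c ^ n) := by
  cases n with
  | ofNat n => rw [Int.ofNat_eq_natCast, zpow_natCast, zpow_natCast]; exact h.pow n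
  | negSucc n =>
    rw [zpow_negSucc, zpow_negSucc]
    exact (h.pow _).inv (pow_ne_zero _ hc)

theorem Rs.sum {P : Place L E} {ι : Type*} (s : Finset ι) (y : ι → E) (c : ι → L)
    (h : ∀ i ∈ s, Rs P (y i) (c i)) : Rs P (∑ i ∈ s, y i) (∑ i ∈ s, c i) := by
  classical
  induction s using Finset.induction_on with
  | empty =>
    rw [Finset.sum_empty, Finset.sum_empty]
    have := Rs.const P (0 : L)
    rwa [map_zero] at this
  | insert a s ha ih =>
    rw [Finset.sum_insert ha, Finset.sum_insert ha]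
    exact (h a (Finset.mem_insert_self _ _)).add (ih fun i hi => h i (Finset.mem_insert_of_mem hi))

theorem Rs.prod {P : Place L E} {ι : Type*} (s : Finset ι) (y : ι → E) (c : ι → L)
    (h : ∀ i ∈ s, Rs P (y i) (c i)) : Rs P (∏ i ∈ s, y i) (∏ i ∈ s, c i) := by
  classical
  induction s using Finset.induction_on with
  | empty => rw [Finset.prod_empty, Finset.prod_empty]; exact Rs.one P
  | insert a s ha ih =>
    rw [Finset.prod_insert ha, Finset.prod_insert ha]
    exact (h a (Finset.mem_insert_self _ _)).mul (ih fun i hi => h i (Finset.mem_insert_of_mem hi))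

theorem Rs.aeval {P : Place L E} {x z : E} {α β : L} (hx : Rs P x α) (hz : Rs P z β)
    (q : MvPolynomial (Fin 2) L) :
    Rs P (MvPolynomial.aeval ![x, z] q) (MvPolynomial.eval ![α, β] q) := by
  induction q using MvPolynomial.induction_on with
  | C c =>
    rw [← MvPolynomial.algebraMap_eq, AlgHom.commutes]
    change Rs P _ (MvPolynomial.eval ![α, β] (MvPolynomial.C c))
    rw [MvPolynomial.eval_C]
    exact Rs.const P c
  | add p q hp hq => rw [map_add, map_add]; exact hp.add hq
  | mul_X p i hp =>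
    rw [map_mul, map_mul, MvPolynomial.aeval_X, MvPolynomial.eval_X]
    refine hp.mul ?_
    fin_cases i
    · exact hx
    · exact hz

/-- order of a product of integral powers -/
theorem ord_prod_zpow (P : Place L E) {ι : Type*} (s : Finset ι) (y : ι → E) (n : ι → ℤ)
    (h : ∀ i ∈ s, y i ≠ 0) :
    P.ord (∏ i ∈ s, y i ^ n i) = ∑ i ∈ s, n i * P.ord (y i) := by
  classical
  induction s using Finset.induction_on with
  | empty => simp
  | insert a s ha ih =>
    rw [Finset.prod_insert ha, Finset.sum_insert ha, P.ord_mul, P.ord_zpow,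
      ih fun i hi => h i (Finset.mem_insert_of_mem hi)]
    · exact zpow_ne_zero _ (h a (Finset.mem_insert_self _ _))
    · exact Finset.prod_ne_zero_iff.2 fun i hi => zpow_ne_zero _
        (h i (Finset.mem_insert_of_mem hi))

/-- the order of the pole -/
noncomputable def mp (P : Place L E) (y : E) : ℤ := max 0 (-P.ord y)

theorem mp_nonneg (P : Place L E) (y : E) : 0 ≤ mp P y := le_max_left _ _

theorem ge_mp (P : Place L E) (y : E) : P.Ge (-(mp P y)) y := by
  refine P.ge_ord.mono ?_
  unfold mp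
  omega

theorem ge_mp_pow (P : Place L E) (y : E) {i d : ℕ} (hi : i ≤ d) :
    P.Ge (-(d * mp P y)) (y ^ i) := by
  refine ((ge_mp P y).pow i).mono ?_
  have h0 := mp_nonneg P y
  have h1 : (i : ℤ) * mp P y ≤ d * mp P y := mul_le_mul_of_nonneg_right (by exact_mod_cast hi) h0
  linarith

theorem mp_pow (P : Place L E) (y : E) (d : ℕ) : mp P (y ^ d) = d * mp P y := by
  unfold mp
  rw [P.ord_pow, ← mul_neg, mul_max_of_nonneg _ _ (by positivity : (0 : ℤ) ≤ d), mul_zero]

/-- the estimate of the order of `φ_l` -/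
theorem fract_est (ρ : ℚ) (o : ℤ) : -((max 0 (-o) : ℤ) : ℚ) ≤ (ρ - ⌊ρ⌋) * o := by
  have h1 : 0 ≤ ρ - ⌊ρ⌋ := sub_nonneg.2 (Int.floor_le ρ)
  have h2 : ρ - ⌊ρ⌋ ≤ 1 := by
    have := Int.lt_floor_add_one ρ
    linarith
  rcases le_total 0 o with h | h
  · have h3 : (0 : ℚ) ≤ o := by exact_mod_cast h
    rw [max_eq_left (by omega)]
    have := mul_nonneg h1 h3
    simpa using this
  · have h3 : (o : ℚ) ≤ 0 := by exact_mod_cast h
    rw [max_eq_right (by omega)]
    push_cast
    nlinarith

end

end Pool.Agent.PPZ.H58
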