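import Mathlib
import Pool.Agent.Helper58_PPZ.RelA

/-!
# Squad PPZ, module REL, part 2: pole bounds and heights
-/

set_option autoImplicit false

universe u

namespace Pool.Agent.PPZ.H58

open PGH

section

variable {k E : Type*} [Field k] [Field E] [Algebra k E]

theorem rel_phs (P : Place k E) (x z ph : E) (s₁ s₂ : Finset k) (ρ₁ ρ₂ : k → ℚ)
    (hx : ∀ c, x - algebraMap k E c ≠ 0) (hz : ∀ c, z - algebraMap k E c ≠ 0) (hph : ph ≠ 0)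
    (hord : (P.ord ph : ℚ) = ∑ c ∈ s₂, ρ₂ c * P.ord (z - algebraMap k E c) -
      ∑ c ∈ s₁, ρ₁ c * P.ord (x - algebraMap k E c)) (l : ℕ) :
    P.Ge (-(∑ c ∈ s₂, mp P (z - algebraMap k E c) + ∑ c ∈ s₁, mp P (x - algebraMap k E c)⁻¹))
      (ph ^ l * (∏ c ∈ s₁, (x - algebraMap k E c) ^ ⌊(l : ℚ) * ρ₁ c⌋) *
        ∏ c ∈ s₂, (z - algebraMap k E c) ^ (-⌊(l : ℚ) * ρ₂ c⌋)) := by
  have h1 : (∏ c ∈ s₁, (x - algebraMap k E c) ^ ⌊(l : ℚ) * ρ₁ c⌋) ≠ 0 :=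
    Finset.prod_ne_zero_iff.2 fun c _ => zpow_ne_zero _ (hx c)
  have h2 : (∏ c ∈ s₂, (z - algebraMap k E c) ^ (-⌊(l : ℚ) * ρ₂ c⌋)) ≠ 0 :=
    Finset.prod_ne_zero_iff.2 fun c _ => zpow_ne_zero _ (hz c)
  have h3 : ph ^ l ≠ 0 := pow_ne_zero _ hph
  rw [P.ge_iff (mul_ne_zero (mul_ne_zero h3 h1) h2), P.ord_mul (mul_ne_zero h3 h1) h2,
    P.ord_mul h3 h1, P.ord_pow, ord_prod_zpow P s₁ _ _ (fun c _ => hx c),
    ord_prod_zpow P s₂ _ _ (fun c _ => hz c)]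
  have h4 : ((l * P.ord ph + ∑ c ∈ s₁, ⌊(l : ℚ) * ρ₁ c⌋ * P.ord (x - algebraMap k E c) +
      ∑ c ∈ s₂, -⌊(l : ℚ) * ρ₂ c⌋ * P.ord (z - algebraMap k E c) : ℤ) : ℚ) =
      ∑ c ∈ s₂, ((l : ℚ) * ρ₂ c - ⌊(l : ℚ) * ρ₂ c⌋) * P.ord (z - algebraMap k E c) +
      ∑ c ∈ s₁, ((l : ℚ) * ρ₁ c - ⌊(l : ℚ) * ρ₁ c⌋) *
        ((-P.ord (x - algebraMap k E c) : ℤ) : ℚ) := by
    push_cast
    rw [hord, mul_sub, Finset.mul_sum, Finset.mul_sum]
    have e1 : ∑ c ∈ s₂, ((l : ℚ) * ρ₂ c - ⌊(l : ℚ) * ρ₂ c⌋) * (P.ord (z - algebraMap k E c) : ℚ) =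
        ∑ c ∈ s₂, (l : ℚ) * (ρ₂ c * P.ord (z - algebraMap k E c)) +
        ∑ c ∈ s₂, -(⌊(l : ℚ) * ρ₂ c⌋ : ℚ) * P.ord (z - algebraMap k E c) := by
      rw [← Finset.sum_add_distrib]
      exact Finset.sum_congr rfl fun c _ => by ring
    have e2 : ∑ c ∈ s₁, ((l : ℚ) * ρ₁ c - ⌊(l : ℚ) * ρ₁ c⌋) *
        (-(P.ord (x - algebraMap k E c) : ℚ)) =
        -(∑ c ∈ s₁, (l : ℚ) * (ρ₁ c * P.ord (x - algebraMap k E c))) +
        ∑ c ∈ s₁, (⌊(l : ℚ) * ρ₁ c⌋ : ℚ) * P.ord (x - algebraMap k E c) := by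
      rw [← Finset.sum_neg_distrib, ← Finset.sum_add_distrib]
      exact Finset.sum_congr rfl fun c _ => by ring
    rw [e1, e2]
    ring
  have h5 : -((∑ c ∈ s₂, mp P (z - algebraMap k E c) + ∑ c ∈ s₁, mp P (x - algebraMap k E c)⁻¹ : ℤ)
      : ℚ) ≤ ((l * P.ord ph + ∑ c ∈ s₁, ⌊(l : ℚ) * ρ₁ c⌋ * P.ord (x - algebraMap k E c) +
      ∑ c ∈ s₂, -⌊(l : ℚ) * ρ₂ c⌋ * P.ord (z - algebraMap k E c) : ℤ) : ℚ) := by
    rw [h4]
    push_cast
    rw [neg_add, ← Finset.sum_neg_distrib, ← Finset.sum_neg_distrib]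
    refine add_le_add (Finset.sum_le_sum fun c _ => ?_) (Finset.sum_le_sum fun c _ => ?_)
    · exact fract_est _ _
    · have := fract_est ((l : ℚ) * ρ₁ c) (-P.ord (x - algebraMap k E c))
      unfold mp
      rw [P.ord_inv]
      push_cast at this ⊢
      exact this
  exact_mod_cast h5

variable [IsAlgClosed k] [CharZero k] [FF k E]

theorem ht_sub_const (y : E) (c : k) : ht k (y - algebraMap k E c) ≤ ht k y := by
  have h1 := ht_add_le (L := k) y (algebraMap k E (-c))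
  rw [ht_const, add_zero, map_neg, ← sub_eq_add_neg] at h1
  exact h1

theorem ht_bound (W x z th : E) (s₁ s₂ : Finset k) (d₁ d₂ : ℕ)
    (h : ∀ P : Place k E, P.Ge (-(d₁ * mp P x + d₂ * mp P z + 16 * mp P th +
      (∑ c ∈ s₂, mp P (z - algebraMap k E c) + ∑ c ∈ s₁, mp P (x - algebraMap k E c)⁻¹))) W) :
    ht k W ≤ d₁ * ht k x + d₂ * ht k z + 16 * ht k th + (s₂.card * ht k z + s₁.card * ht k x) := by
  classical
  let F : Fin 3 ⊕ (k ⊕ k) → E := Sum.elim ![x ^ d₁, z ^ d₂, th ^ 16]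
    (Sum.elim (fun c => z - algebraMap k E c) (fun c => (x - algebraMap k E c)⁻¹))
  have h1 := ht_le_of_pole_le (L := k) (Finset.univ.disjSum (s₂.disjSum s₁)) F W (fun P => by
    rw [Finset.sum_disjSum, Finset.sum_disjSum, Fin.sum_univ_three]
    change max 0 (-P.ord W) ≤ mp P (x ^ d₁) + mp P (z ^ d₂) + mp P (th ^ 16) +
      (∑ c ∈ s₂, mp P (z - algebraMap k E c) + ∑ c ∈ s₁, mp P (x - algebraMap k E c)⁻¹)
    rw [mp_pow, mp_pow, mp_pow]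
    have h0 : 0 ≤ (d₁ : ℤ) * mp P x + d₂ * mp P z + (16 : ℕ) * mp P th +
      (∑ c ∈ s₂, mp P (z - algebraMap k E c) + ∑ c ∈ s₁, mp P (x - algebraMap k E c)⁻¹) := by
      have a1 := mp_nonneg P x
      have a2 := mp_nonneg P z
      have a3 := mp_nonneg P th
      have a4 : 0 ≤ ∑ c ∈ s₂, mp P (z - algebraMap k E c) :=
        Finset.sum_nonneg fun c _ => mp_nonneg P _
      have a5 : 0 ≤ ∑ c ∈ s₁, mp P (x - algebraMap k E c)⁻¹ :=
        Finset.sum_nonneg fun c _ => mp_nonneg P _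
      positivity
    refine max_le h0 ?_
    by_cases hW : W = 0
    · rw [hW, P.ord_zero, neg_zero]; exact h0
    · have h2 := (P.ge_iff hW).1 (h P)
      push_cast
      linarith)
  rw [Finset.sum_disjSum, Finset.sum_disjSum, Fin.sum_univ_three] at h1
  refine h1.trans (add_le_add (add_le_add (add_le_add ?_ ?_) ?_) (add_le_add ?_ ?_))
  · exact ht_pow_le _ _
  · exact ht_pow_le _ _
  · exact ht_pow_le _ _
  · rw [← smul_eq_mul, ← Finset.sum_const]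
    exact Finset.sum_le_sum fun c _ => ht_sub_const z c
  · rw [← smul_eq_mul, ← Finset.sum_const]
    refine Finset.sum_le_sum fun c _ => ?_
    change ht k (x - algebraMap k E c)⁻¹ ≤ ht k x
    rw [ht_inv]
    exact ht_sub_const x c

end

end Pool.Agent.PPZ.H58
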